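import Mathlib

set_option autoImplicit false
set_option linter.unusedSectionVars false

open Finset Filter Topology Matrix

namespace Pool.Agent.Results.MP_7f396f_pr.NoCutoff

section Defs
variable {G : Type} [AddCommGroup G] [Fintype G] [DecidableEq G]

/-- Transition matrix of simple random walk on the undirected Cayley multigraph `G(Z)`, which has
an edge joining `g` and `g + z` for each `g` in `G` and `z` in `Z`. -/
noncomputable def trans (Z : Finset G) : Matrix G G ℝ := fun x y =>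
  ((if y - x ∈ Z then 1 else 0) + (if x - y ∈ Z then 1 else 0)) / (2 * (Z.card : ℝ))

theorem trans_isHermitian (Z : Finset G) : (trans Z).IsHermitian := by
  ext x y
  simp [trans, add_comm]

/-- Worst-case total variation distance to the uniform law at time `t`. -/
noncomputable def dist (Z : Finset G) (t : ℕ) : ℝ :=
  ⨆ x : G, (1 / 2) * ∑ y : G, |(trans Z ^ t) x y - 1 / (Fintype.card G : ℝ)|

/-- The `ε`-mixing time. -/
noncomputable def tmix (Z : Finset G) (ε : ℝ) : ℕ := sInf {t : ℕ | dist Z t ≤ ε}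

/-- Spectral gap: one minus the second largest eigenvalue of the transition matrix. -/
noncomputable def gap (Z : Finset G) : ℝ :=
  if h : 1 < Fintype.card G then 1 - (trans_isHermitian Z).eigenvalues₀ ⟨1, h⟩ else 0

end Defs

section General
variable {G : Type} [AddCommGroup G] [Fintype G] [DecidableEq G]

lemma trans_eq {Z : Finset G} (hs : ∀ z ∈ Z, -z ∈ Z) (x y : G) :
    trans Z x y = (if y - x ∈ Z then 1 else 0) / (Z.card : ℝ) := by
  have : x - y ∈ Z ↔ y - x ∈ Z := by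
    constructor
    · intro h; simpa using hs _ h
    · intro h; simpa using hs _ h
  unfold trans
  by_cases h : y - x ∈ Z
  · simp only [this, h, if_true]
    rcases eq_or_ne (Z.card : ℝ) 0 with h0 | h0
    · simp [h0]
    · field_simp; norm_num
  · simp [this, h]

lemma trans_nonneg (Z : Finset G) (x y : G) : 0 ≤ trans Z x y := by
  unfold trans; positivity

lemma sum_trans_mul {Z : Finset G} (hs : ∀ z ∈ Z, -z ∈ Z) (x : G) (f : G → ℝ) :
    ∑ y, trans Z x y * f y = (∑ z ∈ Z, f (x + z)) / (Z.card : ℝ) := by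
  simp only [trans_eq hs]
  rw [← Equiv.sum_comp (Equiv.addLeft x)]
  simp only [Equiv.coe_addLeft, add_sub_cancel_left]
  rw [Finset.sum_div]
  rw [← Finset.sum_subset (Finset.subset_univ Z)]
  · exact Finset.sum_congr rfl fun z hz => by simp [hz]; ring
  · intro z _ hz; simp [hz]

lemma row_sum {Z : Finset G} (hs : ∀ z ∈ Z, -z ∈ Z) (hZ : Z.Nonempty) (x : G) :
    ∑ y, trans Z x y = 1 := by
  have := sum_trans_mul hs x (fun _ => 1)
  simp only [mul_one, sum_const, nsmul_eq_mul] at this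
  rw [this]
  have : (Z.card : ℝ) ≠ 0 := by exact_mod_cast hZ.card_pos.ne'
  field_simp

lemma trans_symm (Z : Finset G) (x y : G) : trans Z x y = trans Z y x := by
  simp [trans, add_comm]

lemma col_sum {Z : Finset G} (hs : ∀ z ∈ Z, -z ∈ Z) (hZ : Z.Nonempty) (y : G) :
    ∑ x, trans Z x y = 1 := by
  simp only [trans_symm Z _ y]; exact row_sum hs hZ y

lemma pow_nonneg' (Z : Finset G) (t : ℕ) (x y : G) : 0 ≤ (trans Z ^ t) x y := by
  induction t generalizing y with
  | zero => simp [Matrix.one_apply]; split_ifs <;> norm_num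
  | succ t ih =>
    rw [pow_succ, Matrix.mul_apply]
    exact Finset.sum_nonneg fun w _ => mul_nonneg (ih w) (trans_nonneg _ _ _)

lemma pow_row_sum {Z : Finset G} (hs : ∀ z ∈ Z, -z ∈ Z) (hZ : Z.Nonempty) (t : ℕ) (x : G) :
    ∑ y, (trans Z ^ t) x y = 1 := by
  induction t with
  | zero => simp [Matrix.one_apply]
  | succ t ih =>
    simp only [pow_succ, Matrix.mul_apply]
    rw [Finset.sum_comm]
    simp only [← Finset.mul_sum, row_sum hs hZ, mul_one, ih]

lemma pow_col_sum {Z : Finset G} (hs : ∀ z ∈ Z, -z ∈ Z) (hZ : Z.Nonempty) (t : ℕ) (y : G) :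
    ∑ x, (trans Z ^ t) x y = 1 := by
  induction t with
  | zero => simp [Matrix.one_apply]
  | succ t ih =>
    simp only [pow_succ', Matrix.mul_apply]
    rw [Finset.sum_comm]
    simp only [← Finset.sum_mul, col_sum hs hZ, one_mul, ih]

/-- Lower bound on the distance from a test set. -/
lemma dist_ge {Z : Finset G} (hs : ∀ z ∈ Z, -z ∈ Z) (hZ : Z.Nonempty) (t : ℕ) (W : Finset G) :
    ∑ y ∈ W, (trans Z ^ t) 0 y - (W.card : ℝ) / (Fintype.card G : ℝ) ≤ dist Z t := by
  have hc : (0 : ℝ) < Fintype.card G := by exact_mod_cast Fintype.card_pos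
  refine le_trans ?_ (le_ciSup (f := fun x : G => (1 / 2) * ∑ y : G,
    |(trans Z ^ t) x y - 1 / (Fintype.card G : ℝ)|) (Finite.bddAbove_range _) 0)
  set g : G → ℝ := fun y => (trans Z ^ t) 0 y - 1 / (Fintype.card G : ℝ) with hg
  have h0 : ∑ y, g y = 0 := by
    simp only [hg, Finset.sum_sub_distrib, pow_row_sum hs hZ, sum_const, card_univ, nsmul_eq_mul]
    field_simp; ring
  have h1 : ∑ y ∈ W, (trans Z ^ t) 0 y - (W.card : ℝ) / (Fintype.card G : ℝ) = ∑ y ∈ W, g y := by
    simp only [hg, Finset.sum_sub_distrib, sum_const, nsmul_eq_mul]; ring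
  rw [h1]
  have h2 := Finset.sum_add_sum_compl W g
  have h3 := Finset.sum_add_sum_compl W (fun y => |g y|)
  have h4 : ∑ y ∈ W, g y ≤ ∑ y ∈ W, |g y| := Finset.sum_le_sum fun y _ => le_abs_self _
  have h5 : -∑ y ∈ Wᶜ, g y ≤ ∑ y ∈ Wᶜ, |g y| := by
    rw [← Finset.sum_neg_distrib]; exact Finset.sum_le_sum fun y _ => neg_le_abs _
  change ∑ y ∈ W, g y ≤ (1 / 2) * ∑ y, |g y|
  linarith

/-- Mass of a nested family of test sets. -/
lemma mass_ge {Z A : Finset G} (hs : ∀ z ∈ Z, -z ∈ Z) (hA : A ⊆ Z) (W : ℕ → Finset G)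
    (h0 : (0 : G) ∈ W 0) (hW : ∀ t, ∀ w ∈ W t, ∀ a ∈ A, w + a ∈ W (t + 1)) (t : ℕ) :
    ((A.card : ℝ) / Z.card) ^ t ≤ ∑ y ∈ W t, (trans Z ^ t) 0 y := by
  induction t with
  | zero => simp [Matrix.one_apply, h0]
  | succ t ih =>
    simp only [pow_succ, Matrix.mul_apply]
    rw [Finset.sum_comm]
    simp only [← Finset.mul_sum]
    have key : ∀ w ∈ W t, (A.card : ℝ) / Z.card ≤ ∑ y ∈ W (t + 1), trans Z w y := by
      intro w hw
      have h1 := sum_trans_mul hs w (fun y => if y ∈ W (t + 1) then 1 else 0)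
      have h2 : ∑ y, trans Z w y * (if y ∈ W (t + 1) then 1 else 0) =
          ∑ y ∈ W (t + 1), trans Z w y := by
        simp [Finset.sum_ite_mem]
      rw [← h2, h1]
      gcongr
      calc (A.card : ℝ) = ∑ z ∈ A, (if w + z ∈ W (t + 1) then (1 : ℝ) else 0) := by
            rw [Finset.sum_congr rfl (g := fun _ => (1 : ℝ)) fun z hz => by simp [hW t w hw z hz]]
            simp
        _ ≤ _ := Finset.sum_le_sum_of_subset_of_nonneg hA fun z _ _ => by positivity
    calc ((A.card : ℝ) / Z.card) ^ t * (A.card / Z.card)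
        ≤ (∑ y ∈ W t, (trans Z ^ t) 0 y) * (A.card / Z.card) := by gcongr
      _ = ∑ w ∈ W t, (trans Z ^ t) 0 w * (A.card / Z.card) := by rw [Finset.sum_mul]
      _ ≤ ∑ w ∈ W t, (trans Z ^ t) 0 w * ∑ y ∈ W (t + 1), trans Z w y :=
          Finset.sum_le_sum fun w hw => mul_le_mul_of_nonneg_left (key w hw) (pow_nonneg' _ _ _ _)
      _ ≤ _ := Finset.sum_le_sum_of_subset_of_nonneg (Finset.subset_univ _) fun w _ _ =>
          mul_nonneg (pow_nonneg' _ _ _ _) (Finset.sum_nonneg fun _ _ => trans_nonneg _ _ _)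

/-- Doeblin contraction. -/
lemma dist_le {Z : Finset G} (hs : ∀ z ∈ Z, -z ∈ Z) (hZ : Z.Nonempty) (θ : ℝ) (hθ1 : θ ≤ 1)
    (hθ : ∀ x y, θ / (Fintype.card G : ℝ) ≤ (trans Z ^ 2) x y) (s : ℕ) :
    dist Z (2 * s) ≤ (1 - θ) ^ s := by
  have hc : (0 : ℝ) < Fintype.card G := by exact_mod_cast Fintype.card_pos
  refine ciSup_le fun x => ?_
  have : ∑ y : G, |(trans Z ^ (2 * s)) x y - 1 / (Fintype.card G : ℝ)| ≤ 2 * (1 - θ) ^ s := by
    induction s with
    | zero =>
      simp only [mul_zero, pow_zero, mul_one]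
      calc ∑ y : G, |(1 : Matrix G G ℝ) x y - 1 / (Fintype.card G : ℝ)|
          ≤ ∑ y : G, ((1 : Matrix G G ℝ) x y + 1 / (Fintype.card G : ℝ)) := by
            refine Finset.sum_le_sum fun y _ => ?_
            have : 0 ≤ (1 : Matrix G G ℝ) x y := by
              simp [Matrix.one_apply]; split_ifs <;> norm_num
            have h2 : 0 ≤ 1 / (Fintype.card G : ℝ) := by positivity
            rw [abs_le]; constructor <;> linarith
        _ = 2 := by
            rw [Finset.sum_add_distrib]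
            simp [Matrix.one_apply]
            norm_num
    | succ s ih =>
      set g : G → ℝ := fun y => (trans Z ^ (2 * s)) x y - 1 / (Fintype.card G : ℝ) with hg
      have h0 : ∑ y, g y = 0 := by
        simp only [hg, Finset.sum_sub_distrib, pow_row_sum hs hZ, sum_const, card_univ,
          nsmul_eq_mul]
        field_simp; ring
      have h1 : ∀ y, (trans Z ^ (2 * (s + 1))) x y - 1 / (Fintype.card G : ℝ) =
          ∑ w, g w * ((trans Z ^ 2) w y - θ / (Fintype.card G : ℝ)) := by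
        intro y
        rw [show 2 * (s + 1) = 2 * s + 2 by ring, pow_add, Matrix.mul_apply]
        simp only [mul_sub, Finset.sum_sub_distrib, ← Finset.sum_mul, h0, zero_mul, sub_zero]
        simp only [hg, sub_mul, Finset.sum_sub_distrib, ← Finset.mul_sum, pow_col_sum hs hZ,
          mul_one]
      calc ∑ y : G, |(trans Z ^ (2 * (s + 1))) x y - 1 / (Fintype.card G : ℝ)|
          ≤ ∑ y, ∑ w, |g w| * ((trans Z ^ 2) w y - θ / (Fintype.card G : ℝ)) := by
            refine Finset.sum_le_sum fun y _ => ?_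
            rw [h1]
            refine (Finset.abs_sum_le_sum_abs _ _).trans (le_of_eq ?_)
            refine Finset.sum_congr rfl fun w _ => ?_
            rw [abs_mul, abs_of_nonneg (sub_nonneg.2 (hθ w y))]
        _ = ∑ w, |g w| * (1 - θ) := by
            rw [Finset.sum_comm]
            refine Finset.sum_congr rfl fun w _ => ?_
            rw [← Finset.mul_sum, Finset.sum_sub_distrib, pow_row_sum hs hZ]
            simp only [sum_const, card_univ, nsmul_eq_mul]
            congr 1; field_simp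
        _ ≤ 2 * (1 - θ) ^ (s + 1) := by
            rw [← Finset.sum_mul, pow_succ, ← mul_assoc]
            exact mul_le_mul_of_nonneg_right ih (by linarith)
  linarith

/-- Eigenvalues on mean-zero eigenvectors are character sums. -/
lemma eig_le {Z : Finset G} (hs : ∀ z ∈ Z, -z ∈ Z) (hZ : Z.Nonempty) (c : ℝ)
    (hc : ∀ χ : AddChar G ℂ, χ ≠ 0 → (∑ z ∈ Z, χ z).re ≤ c * Z.card)
    (f : G → ℝ) (hf : f ≠ 0) (hsum : ∑ x, f x = 0) (l : ℝ) (hl : trans Z *ᵥ f = l • f) :
    l ≤ c := by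
  have hZc : (0 : ℝ) < Z.card := by exact_mod_cast hZ.card_pos
  obtain ⟨χ, hχ⟩ : ∃ χ : AddChar G ℂ, ∑ x, (f x : ℂ) * χ x ≠ 0 := by
    by_contra! h
    apply hf
    funext a
    let L : (G → ℂ) →ₗ[ℂ] ℂ :=
      { toFun := fun g => ∑ x, (f x : ℂ) * g x
        map_add' := fun g₁ g₂ => by simp [mul_add, Finset.sum_add_distrib]
        map_smul' := fun r g => by simp [Finset.mul_sum, mul_left_comm] }
    have hL : L = 0 := (AddChar.complexBasis G).ext fun χ => by simpa [L] using h χ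
    have := congrArg (fun T : (G → ℂ) →ₗ[ℂ] ℂ => T (Pi.single a 1)) hL
    simp [L, Pi.single_apply] at this
    simpa using this
  have hχ0 : χ ≠ 0 := by
    rintro rfl
    apply hχ
    simp only [AddChar.zero_apply, mul_one]
    exact_mod_cast hsum
  have h1 : ∀ x, l * f x = (∑ z ∈ Z, f (x + z)) / (Z.card : ℝ) := by
    intro x
    have := congrFun hl x
    simp only [Matrix.mulVec, dotProduct, Pi.smul_apply, smul_eq_mul] at this
    rw [← this, sum_trans_mul hs]
  have h2 : (l : ℂ) * (Z.card : ℂ) * ∑ x, (f x : ℂ) * χ x =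
      (∑ z ∈ Z, χ (-z)) * ∑ x, (f x : ℂ) * χ x := by
    rw [Finset.mul_sum, Finset.sum_mul]
    have : ∀ x, (l : ℂ) * (Z.card : ℂ) * ((f x : ℂ) * χ x) = ∑ z ∈ Z, (f (x + z) : ℂ) * χ x := by
      intro x
      have h3 : l * Z.card * f x = ∑ z ∈ Z, f (x + z) := by
        have := h1 x; field_simp at this; linarith
      have h4 : (l : ℂ) * (Z.card : ℂ) * (f x : ℂ) = ∑ z ∈ Z, (f (x + z) : ℂ) := by
        exact_mod_cast h3
      rw [← mul_assoc, h4, Finset.sum_mul]
    simp only [this]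
    rw [Finset.sum_comm]
    refine Finset.sum_congr rfl fun z _ => ?_
    rw [Finset.mul_sum, ← Equiv.sum_comp (Equiv.addRight z) (fun x => χ (-z) * ((f x : ℂ) * χ x))]
    refine Finset.sum_congr rfl fun x _ => ?_
    simp only [Equiv.coe_addRight]
    have : χ x = χ (-z) * χ (x + z) := by
      rw [← AddChar.map_add_eq_mul]; congr 1; abel
    rw [this]; ring
  have h3 : (l : ℂ) * (Z.card : ℂ) = ∑ z ∈ Z, χ z := by
    rw [mul_right_cancel₀ hχ h2]
    refine Finset.sum_bij (fun z _ => -z) (fun z hz => hs z hz) (fun a _ b _ h => neg_injective h)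
      (fun b hb => ⟨-b, hs b hb, neg_neg b⟩) (fun _ _ => rfl)
  have h4 := hc χ hχ0
  rw [← h3] at h4
  have h5 : ((l : ℂ) * (Z.card : ℂ)).re = l * Z.card := by
    rw [show (l : ℂ) * (Z.card : ℂ) = ((l * Z.card : ℝ) : ℂ) by push_cast; ring, Complex.ofReal_re]
  rw [h5] at h4
  exact le_of_mul_le_mul_right h4 hZc

lemma gap_ge {Z : Finset G} (hs : ∀ z ∈ Z, -z ∈ Z) (hZ : Z.Nonempty) (c : ℝ)
    (hc : ∀ χ : AddChar G ℂ, χ ≠ 0 → (∑ z ∈ Z, χ z).re ≤ c * Z.card)
    (h : 1 < Fintype.card G) : 1 - c ≤ gap Z := by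
  unfold gap
  rw [dif_pos h]
  set hA := trans_isHermitian Z
  have hcard : (0 : ℝ) < Fintype.card G := by exact_mod_cast Fintype.card_pos
  have key : ∀ j : G, hA.eigenvalues j ≤ c ∨
      ∃ r : ℝ, ∀ x, (hA.eigenvectorBasis j : G → ℝ) x = r := by
    intro j
    set v : G → ℝ := ⇑(hA.eigenvectorBasis j) with hv
    have hv1 : trans Z *ᵥ v = hA.eigenvalues j • v := hA.mulVec_eigenvectorBasis j
    set m : ℝ := (∑ x, v x) / Fintype.card G with hm
    by_cases hl : hA.eigenvalues j = 1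
    · by_cases h0 : (fun x => v x - m) = 0
      · right; exact ⟨m, fun x => by have := congrFun h0 x; simp at this; linarith⟩
      · left
        refine eig_le hs hZ c hc _ h0 ?_ _ ?_
        · simp only [Finset.sum_sub_distrib, sum_const, card_univ, nsmul_eq_mul, hm]
          field_simp; ring
        · funext x
          have := congrFun hv1 x
          simp only [Matrix.mulVec, dotProduct, Pi.smul_apply, smul_eq_mul, hl, one_mul] at this ⊢
          simp only [mul_sub, Finset.sum_sub_distrib, this, ← Finset.sum_mul, row_sum hs hZ,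
            one_mul]
    · left
      refine eig_le hs hZ c hc v ?_ ?_ _ hv1
      · intro h0
        have := hA.eigenvectorBasis.orthonormal.ne_zero j
        apply this
        ext x
        exact congrFun h0 x
      · have h1 : ∑ x, (trans Z *ᵥ v) x = ∑ x, v x := by
          simp only [Matrix.mulVec, dotProduct]
          rw [Finset.sum_comm]
          simp only [← Finset.sum_mul, col_sum hs hZ, one_mul]
        rw [hv1] at h1
        simp only [Pi.smul_apply, smul_eq_mul, ← Finset.mul_sum] at h1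
        have : (hA.eigenvalues j - 1) * ∑ x, v x = 0 := by linarith
        rcases mul_eq_zero.1 this with h2 | h2
        · exact absurd (by linarith) hl
        · exact h2
  set e := (Fintype.equivOfCardEq (Fintype.card_fin (Fintype.card G)) : Fin (Fintype.card G) ≃ G)
  have he : ∀ i, hA.eigenvalues (e i) = hA.eigenvalues₀ i := by
    intro i; simp [Matrix.IsHermitian.eigenvalues, e]
  have h0 : 0 < Fintype.card G := by omega
  have hanti := hA.eigenvalues₀_antitone (show (⟨0, h0⟩ : Fin _) ≤ ⟨1, h⟩ by simp)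
  rcases key (e ⟨1, h⟩) with h1 | ⟨r1, h1⟩
  · rw [he] at h1; linarith
  rcases key (e ⟨0, h0⟩) with h2 | ⟨r0, h2⟩
  · rw [he] at h2; linarith
  exfalso
  have hne : e ⟨0, h0⟩ ≠ e ⟨1, h⟩ := by simp
  have ho := hA.eigenvectorBasis.orthonormal.inner_eq_zero hne
  simp only [PiLp.inner_apply] at ho
  have ho' : ∑ _x : G, r1 * r0 = 0 := by
    rw [← ho]
    refine Finset.sum_congr rfl fun x _ => ?_
    rw [h1 x, h2 x]; simp
  simp only [sum_const, card_univ, nsmul_eq_mul] at ho'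
  rcases mul_eq_zero.1 ho' with h3 | h3
  · linarith
  rcases mul_eq_zero.1 h3 with h4 | h4
  · apply hA.eigenvectorBasis.orthonormal.ne_zero (e ⟨1, h⟩)
    ext x; rw [h1 x, h4]; simp
  · apply hA.eigenvectorBasis.orthonormal.ne_zero (e ⟨0, h0⟩)
    ext x; rw [h2 x, h4]; simp

end General

section Concrete
open Pointwise
variable (p n L : ℕ) [Fact p.Prime] [NeZero L]

/-- moment curve -/
def mom (x : ZMod p) : Fin n → ZMod p := fun i => x ^ (i : ℕ)

/-- punctured lines through the moment curve -/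
def Z0 : Finset (Fin n → ZMod p) :=
  ((univ.erase (0 : ZMod p)) ×ˢ (univ : Finset (ZMod p))).image fun q => q.1 • mom p n q.2

abbrev GG := (Fin n → ZMod p) × ((Fin n → ZMod p) × ZMod L)

def AA : Finset (GG p n L) := Z0 p n ×ˢ univ
def BB : Finset (GG p n L) := univ ×ˢ (Z0 p n ×ˢ {0})
def ZZ : Finset (GG p n L) := AA p n L ∪ BB p n L

lemma Z0_neg (z : Fin n → ZMod p) (hz : z ∈ Z0 p n) : -z ∈ Z0 p n := by
  simp only [Z0, mem_image, mem_product, mem_erase, mem_univ, and_true, Prod.exists] at hz ⊢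
  obtain ⟨a, x, ha, rfl⟩ := hz
  exact ⟨-a, x, by simpa using ha, by simp⟩

lemma ZZ_neg (z : GG p n L) (hz : z ∈ ZZ p n L) : -z ∈ ZZ p n L := by
  obtain ⟨a, b, c⟩ := z
  simp only [ZZ, AA, BB, mem_union, mem_product, mem_univ, and_true, true_and, mem_singleton,
    Prod.neg_mk, neg_eq_zero] at hz ⊢
  rcases hz with h | ⟨h, h'⟩
  · exact Or.inl (Z0_neg p n _ h)
  · exact Or.inr ⟨Z0_neg p n _ h, h'⟩

lemma Z0_injOn (hn : 2 ≤ n) : Set.InjOn (fun q : ZMod p × ZMod p => q.1 • mom p n q.2)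
    (((univ.erase (0 : ZMod p)) ×ˢ (univ : Finset (ZMod p)) : Finset _) : Set _) := by
  rintro ⟨a, x⟩ ha ⟨b, y⟩ _ h
  simp only [coe_product, coe_erase, coe_univ, Set.mem_prod, Set.mem_sdiff, Set.mem_univ,
    Set.mem_singleton_iff, true_and, and_true] at ha
  have h0 := congrFun h ⟨0, by omega⟩
  have h1 := congrFun h ⟨1, by omega⟩
  simp only [mom, Pi.smul_apply, smul_eq_mul, pow_zero, mul_one, pow_one] at h0 h1
  subst h0
  rw [mul_left_cancel₀ ha h1]

lemma Z0_card (hn : 2 ≤ n) : (Z0 p n).card = (p - 1) * p := by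
  rw [Z0, Finset.card_image_of_injOn (Z0_injOn p n hn)]
  simp [ZMod.card]

lemma Z0_char (hn : 2 ≤ n) (χ : AddChar (Fin n → ZMod p) ℂ) (hχ : χ ≠ 0) :
    (∑ z ∈ Z0 p n, χ z).re ≤ n * p := by
  classical
  rw [Z0, Finset.sum_image (Z0_injOn p n hn), Finset.sum_product_right]
  let ψ : ZMod p → AddChar (ZMod p) ℂ := fun x =>
    χ.compAddMonoidHom ((LinearMap.toSpanSingleton (ZMod p) _ (mom p n x)).toAddMonoidHom)
  have hψ : ∀ x a, ψ x a = χ (a • mom p n x) := fun x a => by simp [ψ]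
  have h1 : ∀ x, (∑ a ∈ univ.erase (0 : ZMod p), χ (a • mom p n x)).re ≤
      if ψ x = 0 then (p : ℝ) else 0 := by
    intro x
    have h2 := Finset.add_sum_erase univ (fun a => χ (a • mom p n x)) (mem_univ (0 : ZMod p))
    have h3 := AddChar.sum_eq_ite (ψ x)
    simp only [hψ] at h3
    simp only [zero_smul, AddChar.map_zero_eq_one] at h2
    rw [h3] at h2
    have h4 := congrArg Complex.re h2
    split_ifs at h4 ⊢ with h
    · simp [ZMod.card] at h4 ⊢; linarith
    · simp at h4 ⊢; linarith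
  have h5 : (univ.filter fun x => ψ x = 0).card ≤ n := by
    by_contra! hlt
    obtain ⟨T, hT, hTc⟩ := Finset.exists_subset_card_eq hlt.le
    let w : Fin n → ZMod p := fun i => (T.equivFinOfCardEq hTc).symm i
    have hw : Function.Injective w := Subtype.val_injective.comp (Equiv.injective _)
    have hw0 : ∀ i, ψ (w i) = 0 := fun i => by
      have := hT ((T.equivFinOfCardEq hTc).symm i).2
      simpa using this
    have hdet : (Matrix.vandermonde w).det ≠ 0 := Matrix.det_vandermonde_ne_zero_iff.2 hw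
    apply hχ
    ext y
    have hy : y = ∑ i, (y ᵥ* (Matrix.vandermonde w)⁻¹) i • mom p n (w i) := by
      have h6 : (y ᵥ* (Matrix.vandermonde w)⁻¹) ᵥ* Matrix.vandermonde w = y := by
        rw [Matrix.vecMul_vecMul, Matrix.nonsing_inv_mul _ (isUnit_iff_ne_zero.2 hdet),
          Matrix.vecMul_one]
      conv_lhs => rw [← h6]
      funext j
      simp [Matrix.vecMul, dotProduct, mom, Matrix.vandermonde_apply, Finset.sum_apply]
    rw [hy]
    have h7 : ∀ (s : Finset (Fin n)) (c : Fin n → ZMod p),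
        χ (∑ i ∈ s, c i • mom p n (w i)) = 1 := by
      intro s c
      induction s using Finset.induction_on with
      | empty => simp
      | insert i s hi ih =>
        rw [Finset.sum_insert hi, AddChar.map_add_eq_mul, ih, ← hψ, hw0]; simp
    rw [h7]; simp
  rw [Complex.re_sum]
  calc _ ≤ ∑ x : ZMod p, (if ψ x = 0 then (p : ℝ) else 0) := Finset.sum_le_sum fun x _ => h1 x
    _ = (univ.filter fun x => ψ x = 0).card * (p : ℝ) := by
        rw [Finset.sum_ite]; simp
    _ ≤ n * p := by gcongr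

lemma AA_card (hn : 2 ≤ n) : ((AA p n L).card : ℝ) = ((p : ℝ) - 1) * p * (p ^ n * L) := by
  have hp := (Fact.out : p.Prime).one_le
  simp [AA, Z0_card p n hn, ZMod.card, Nat.cast_sub hp]

lemma BB_card (hn : 2 ≤ n) : ((BB p n L).card : ℝ) = ((p : ℝ) - 1) * p * p ^ n := by
  have hp := (Fact.out : p.Prime).one_le
  simp [BB, Z0_card p n hn, ZMod.card, Nat.cast_sub hp]; ring

lemma GG_card : (Fintype.card (GG p n L) : ℝ) = p ^ n * (p ^ n * L) := by
  simp [ZMod.card]

lemma ZZ_card_le (hn : 2 ≤ n) :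
    ((ZZ p n L).card : ℝ) ≤ ((p : ℝ) - 1) * p * (p ^ n * (L + 1)) := by
  have h : ((ZZ p n L).card : ℝ) ≤ (AA p n L).card + (BB p n L).card := by
    exact_mod_cast Finset.card_union_le _ _
  rw [AA_card p n L hn, BB_card p n L hn] at h
  linarith

lemma ZZ_card_ge (hn : 2 ≤ n) :
    ((p : ℝ) - 1) * p * (p ^ n * L) ≤ ((ZZ p n L).card : ℝ) := by
  rw [← AA_card p n L hn]
  exact_mod_cast Finset.card_le_card Finset.subset_union_left

lemma ZZ_pos (hn : 2 ≤ n) : (0 : ℝ) < (ZZ p n L).card := by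
  have hp : (2 : ℝ) ≤ p := by exact_mod_cast (Fact.out : p.Prime).two_le
  have hL : (0 : ℝ) < L := by exact_mod_cast Nat.pos_of_ne_zero (NeZero.ne L)
  refine lt_of_lt_of_le ?_ (ZZ_card_ge p n L hn)
  have : (0 : ℝ) < p - 1 := by linarith
  positivity

lemma ZZ_nonempty (hn : 2 ≤ n) : (ZZ p n L).Nonempty := by
  have := ZZ_pos p n L hn
  exact Finset.card_pos.1 (by exact_mod_cast this)

lemma ZZ_char (hn : 2 ≤ n) (hp : 4 * n + 1 ≤ p) (hL : 4 ≤ L) (χ : AddChar (GG p n L) ℂ)
    (hχ : χ ≠ 0) : (∑ z ∈ ZZ p n L, χ z).re ≤ (1 / 2) * (ZZ p n L).card := by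
  classical
  have hp' : (4 : ℝ) * n + 1 ≤ p := by exact_mod_cast hp
  have hL' : (4 : ℝ) ≤ L := by exact_mod_cast hL
  have hn' : (2 : ℝ) ≤ n := by exact_mod_cast hn
  have hA : (∑ z ∈ AA p n L, χ z).re ≤ n * p * (p ^ n * L) := by
    let χ₁ := χ.compAddMonoidHom (AddMonoidHom.inl (Fin n → ZMod p) ((Fin n → ZMod p) × ZMod L))
    let χ₂ := χ.compAddMonoidHom (AddMonoidHom.inr (Fin n → ZMod p) ((Fin n → ZMod p) × ZMod L))
    have hχ' : ∀ a b, χ (a, b) = χ₁ a * χ₂ b := fun a b => by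
      simp [χ₁, χ₂, ← AddChar.map_add_eq_mul]
    rw [AA, Finset.sum_product]
    simp only [hχ', ← Finset.mul_sum, ← Finset.sum_mul]
    rw [AddChar.sum_eq_ite]
    split_ifs with h
    · have h1 : χ₁ ≠ 0 := by
        intro h1; apply hχ; ext ⟨a, b⟩; rw [hχ', h, h1]; simp
      have h2 := Z0_char p n hn χ₁ h1
      have h3 : ((Fintype.card ((Fin n → ZMod p) × ZMod L) : ℕ) : ℂ) =
          (((p : ℝ) ^ n * L : ℝ) : ℂ) := by
        simp [ZMod.card]
      rw [h3, Complex.re_mul_ofReal]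
      gcongr
    · simp; positivity
  have hsplit : ∑ z ∈ ZZ p n L, χ z = ∑ z ∈ AA p n L, χ z + ∑ z ∈ ZZ p n L \ AA p n L, χ z := by
    rw [add_comm, Finset.sum_sdiff (show AA p n L ⊆ ZZ p n L from Finset.subset_union_left)]
  have hB : (∑ z ∈ ZZ p n L \ AA p n L, χ z).re ≤ ((p : ℝ) - 1) * p * p ^ n := by
    rw [Complex.re_sum, ← BB_card p n L hn]
    calc _ ≤ ∑ z ∈ ZZ p n L \ AA p n L, (1 : ℝ) := Finset.sum_le_sum fun z _ => by
          have := Complex.re_le_norm (χ z)
          rwa [AddChar.norm_apply] at this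
      _ = (ZZ p n L \ AA p n L).card := by simp
      _ ≤ _ := by
          have : ZZ p n L \ AA p n L ⊆ BB p n L := by
            intro z hz
            simp only [ZZ, Finset.mem_sdiff, mem_union] at hz
            tauto
          exact_mod_cast Finset.card_le_card this
  rw [hsplit, Complex.add_re]
  have hge := ZZ_card_ge p n L hn
  have hK : (0 : ℝ) < (p : ℝ) * p ^ n := by
    have : (0 : ℝ) < p := by linarith
    positivity
  have e1 : (n : ℝ) * L ≤ (1 / 4) * ((p - 1) * L) := by nlinarith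
  have e2 : ((p : ℝ) - 1) ≤ (1 / 4) * ((p - 1) * L) := by nlinarith
  have e3 : (n : ℝ) * p * (p ^ n * L) + ((p : ℝ) - 1) * p * p ^ n ≤
      (1 / 2) * (((p : ℝ) - 1) * p * (p ^ n * L)) := by
    have := mul_le_mul_of_nonneg_right (add_le_add e1 e2) hK.le
    nlinarith
  linarith

lemma sq_ge (hn : 2 ≤ n) (x y : GG p n L) :
    ((L : ℝ) / (L + 1) ^ 2) / (Fintype.card (GG p n L) : ℝ) ≤ (trans (ZZ p n L) ^ 2) x y := by
  have hp : (2 : ℝ) ≤ p := by exact_mod_cast (Fact.out : p.Prime).two_le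
  have hp1 := (Fact.out : p.Prime).one_le
  have hL : (0 : ℝ) < L := by exact_mod_cast Nat.pos_of_ne_zero (NeZero.ne L)
  have hZ := ZZ_pos p n L hn
  rw [pow_two (trans (ZZ p n L)), Matrix.mul_apply, sum_trans_mul (ZZ_neg p n L)]
  simp only [trans_eq (ZZ_neg p n L)]
  let T : Finset (GG p n L) := (Z0 p n ×ˢ Z0 p n).image
    fun q => (q.1, (y.2.1 - x.2.1 - q.2, y.2.2 - x.2.2))
  have hTc : (T.card : ℝ) = (((p : ℝ) - 1) * p) ^ 2 := by
    rw [Finset.card_image_of_injective]
    · simp [Z0_card p n hn, Nat.cast_sub hp1]; ring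
    · rintro ⟨a, b⟩ ⟨c, d⟩ h
      simp only [Prod.mk.injEq, sub_right_inj, and_true] at h
      exact Prod.ext h.1 h.2
  have hTZ : T ⊆ ZZ p n L := by
    intro z hz
    simp only [T, mem_image, mem_product, Prod.exists] at hz
    obtain ⟨a, b, ⟨ha, _⟩, rfl⟩ := hz
    simp [ZZ, AA, ha]
  have hT2 : ∀ z ∈ T, y - (x + z) ∈ ZZ p n L := by
    intro z hz
    simp only [T, mem_image, mem_product, Prod.exists] at hz
    obtain ⟨a, b, ⟨_, hb⟩, rfl⟩ := hz
    obtain ⟨x1, x2, x3⟩ := x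
    obtain ⟨y1, y2, y3⟩ := y
    have e : y2 - (x2 + (y2 - x2 - b)) = b := by abel
    simp [ZZ, BB, e, hb]
  have h1 : (T.card : ℝ) / (ZZ p n L).card ≤
      ∑ z ∈ ZZ p n L, (if y - (x + z) ∈ ZZ p n L then (1 : ℝ) else 0) / (ZZ p n L).card := by
    rw [← Finset.sum_div]
    gcongr
    calc (T.card : ℝ) = ∑ z ∈ T, (if y - (x + z) ∈ ZZ p n L then (1 : ℝ) else 0) := by
          rw [Finset.sum_congr rfl (g := fun _ => (1 : ℝ)) fun z hz => by simp [hT2 z hz]]
          simp
      _ ≤ _ := Finset.sum_le_sum_of_subset_of_nonneg hTZ fun z _ _ => by positivity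
  have h2 := ZZ_card_le p n L hn
  have hp0 : (0 : ℝ) < p - 1 := by linarith
  calc ((L : ℝ) / (L + 1) ^ 2) / (Fintype.card (GG p n L) : ℝ)
      = (((p : ℝ) - 1) * p) ^ 2 / (((p : ℝ) - 1) * p * (p ^ n * (L + 1))) /
          (((p : ℝ) - 1) * p * (p ^ n * (L + 1))) := by
        rw [GG_card]; field_simp
    _ ≤ (T.card : ℝ) / (ZZ p n L).card / (ZZ p n L).card := by
        rw [hTc]; gcongr
    _ ≤ _ := by gcongr

lemma dist_lower (hn : n = 2 * L + 2) (hp : 10 ≤ p) (t : ℕ) (ht : t ≤ L) :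
    1 - (t : ℝ) / (L + 1) - 1 / 100 ≤ dist (ZZ p n L) t := by
  have hn2 : 2 ≤ n := by omega
  have hp' : (10 : ℝ) ≤ p := by exact_mod_cast hp
  have hL : (0 : ℝ) < L := by exact_mod_cast Nat.pos_of_ne_zero (NeZero.ne L)
  have hZ := ZZ_pos p n L hn2
  let W : ℕ → Finset (GG p n L) := fun t => (t • Z0 p n) ×ˢ univ
  have h1 := mass_ge (ZZ_neg p n L) (A := AA p n L) Finset.subset_union_left W
    (by simp [W]) (by
      rintro t ⟨w1, w2⟩ hw ⟨a1, a2⟩ ha
      simp only [W, AA, mem_product, mem_univ, and_true] at hw ha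
      simp only [W, mem_product, mem_univ, and_true, succ_nsmul, Prod.mk_add_mk]
      exact Finset.add_mem_add hw ha) t
  have h2 := dist_ge (ZZ_neg p n L) (ZZ_nonempty p n L hn2) t (W t)
  have h3 : 1 - 1 / ((L : ℝ) + 1) ≤ ((AA p n L).card : ℝ) / (ZZ p n L).card := by
    have h4 := ZZ_card_le p n L hn2
    have hp0 : (0 : ℝ) < p - 1 := by linarith
    calc 1 - 1 / ((L : ℝ) + 1) = ((AA p n L).card : ℝ) /
          (((p : ℝ) - 1) * p * (p ^ n * (L + 1))) := by
          rw [AA_card p n L hn2]; field_simp; ring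
      _ ≤ _ := by gcongr
  have h5 : 1 - (t : ℝ) / (L + 1) ≤ (((AA p n L).card : ℝ) / (ZZ p n L).card) ^ t := by
    have h6 : (0 : ℝ) ≤ 1 - 1 / ((L : ℝ) + 1) := by
      rw [sub_nonneg, div_le_one (by linarith)]; linarith
    calc 1 - (t : ℝ) / (L + 1) = 1 + t * (-(1 / ((L : ℝ) + 1))) := by ring
      _ ≤ (1 + -(1 / ((L : ℝ) + 1))) ^ t := one_add_mul_le_pow (by linarith) t
      _ ≤ _ := by gcongr; linarith
  have h7 : ((W t).card : ℝ) / (Fintype.card (GG p n L) : ℝ) ≤ 1 / 100 := by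
    have h8 : (t • Z0 p n).card ≤ p ^ (2 * L) := by
      calc (t • Z0 p n).card ≤ (Z0 p n).card ^ t := Finset.card_nsmul_le
        _ ≤ (p ^ 2) ^ t := by
            rw [Z0_card p n hn2]; gcongr; rw [pow_two]; gcongr; omega
        _ = p ^ (2 * t) := by rw [← pow_mul]
        _ ≤ p ^ (2 * L) := by gcongr; omega
    have h9 : ((t • Z0 p n).card : ℝ) ≤ (p : ℝ) ^ (2 * L) := by exact_mod_cast h8
    have h10 : ((W t).card : ℝ) = (t • Z0 p n).card * (p ^ n * L) := by
      simp [W, ZMod.card]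
    rw [h10, GG_card, mul_div_mul_right _ _ (by positivity), div_le_iff₀ (by positivity)]
    calc _ ≤ (p : ℝ) ^ (2 * L) := h9
      _ = (1 / 100) * (p ^ (2 * L) * 10 ^ 2) := by ring
      _ ≤ (1 / 100) * (p ^ (2 * L) * p ^ 2) := by gcongr
      _ = _ := by rw [hn, pow_add]
  linarith

end Concrete

lemma le_tmix {G : Type} [AddCommGroup G] [Fintype G] [DecidableEq G] (Z : Finset G) (ε : ℝ)
    (T : ℕ) (hne : ∃ t, dist Z t ≤ ε) (h : ∀ t < T, ε < dist Z t) : T ≤ tmix Z ε := by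
  by_contra! hlt
  have := Nat.sInf_mem (s := {t : ℕ | dist Z t ≤ ε}) hne
  exact absurd this (not_le.2 (h _ hlt))

lemma pow_le_inv (θ : ℝ) (h0 : 0 ≤ θ) (h1 : θ ≤ 1) (s : ℕ) : (1 - θ) ^ s ≤ 1 / (1 + s * θ) := by
  rw [le_div_iff₀ (by positivity)]
  calc (1 - θ) ^ s * (1 + s * θ) ≤ (1 - θ) ^ s * (1 + θ) ^ s := by
        gcongr; exact one_add_mul_le_pow (by linarith) s
    _ = (1 - θ ^ 2) ^ s := by rw [← mul_pow]; ring
    _ ≤ 1 := pow_le_one₀ (by nlinarith) (by nlinarith)

lemma package (N : ℕ) : ∃ (G : Type) (_ : AddCommGroup G) (_ : Fintype G) (_ : DecidableEq G)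
    (Z : Finset G), (∀ x y, 0 < (trans Z ^ 2) x y) ∧ 1 / 2 ≤ gap Z ∧
      10 * (N + 1) ≤ tmix Z (1 / 4) ∧ 16 * (N + 1) ≤ tmix Z (1 / 10) ∧
      1 ≤ tmix Z (1 - 1 / 10) ∧ tmix Z (1 - 1 / 10) ≤ 6 * (N + 1) := by
  obtain ⟨p, hp, hpp⟩ := Nat.exists_infinite_primes (4 * (40 * N + 40) + 1)
  have : Fact p.Prime := ⟨hpp⟩
  set L := 20 * N + 19 with hL
  set n := 40 * N + 40 with hn
  have : NeZero L := ⟨by omega⟩
  have hn2 : 2 ≤ n := by omega
  have hLr : (L : ℝ) = 20 * N + 19 := by rw [hL]; push_cast; ring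
  have hN : (0 : ℝ) ≤ N := by positivity
  set θ : ℝ := (L : ℝ) / (L + 1) ^ 2 with hθ
  have hθ0 : 19 / (400 * ((N : ℝ) + 1)) ≤ θ := by
    rw [hθ, hLr, div_le_div_iff₀ (by positivity) (by positivity)]; nlinarith
  have hθpos : 0 < θ := lt_of_lt_of_le (by positivity) hθ0
  have hθ1 : θ ≤ 1 := by
    rw [hθ, div_le_one (by positivity), hLr]; nlinarith
  have hup : ∀ s : ℕ, dist (ZZ p n L) (2 * s) ≤ 1 / (1 + s * θ) := fun s =>
    (dist_le (ZZ_neg p n L) (ZZ_nonempty p n L hn2) θ hθ1 (sq_ge p n L hn2) s).trans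
      (pow_le_inv θ hθpos.le hθ1 s)
  have hup' : ∀ k : ℕ, dist (ZZ p n L) (2 * (k * (N + 1))) ≤ 1 / (1 + 19 * k / 400) := by
    intro k
    refine (hup _).trans ?_
    have : 19 * (k : ℝ) / 400 ≤ ((k * (N + 1) : ℕ) : ℝ) * θ := by
      push_cast
      calc 19 * (k : ℝ) / 400 = k * (N + 1) * (19 / (400 * ((N : ℝ) + 1))) := by field_simp
        _ ≤ _ := by gcongr
    gcongr
  have hlow := dist_lower p n L (by omega) (by omega)
  have hlow' : ∀ t k : ℕ, k ≤ 16 → t < k * (N + 1) → 1 - (k : ℝ) / 20 - 1 / 100 ≤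
      dist (ZZ p n L) t := by
    intro t k hk ht
    refine le_trans ?_ (hlow t (by nlinarith))
    have h1 : (t : ℝ) ≤ k * (N + 1) := by exact_mod_cast ht.le
    have : (t : ℝ) / (L + 1) ≤ k / 20 := by
      rw [hLr, div_le_div_iff₀ (by positivity) (by positivity)]; nlinarith
    linarith
  have hex : ∀ ε : ℝ, 1 / 10 ≤ ε → ∃ t, dist (ZZ p n L) t ≤ ε := fun ε hε =>
    ⟨_, (hup' 200).trans (by norm_num; linarith)⟩
  refine ⟨GG p n L, inferInstance, inferInstance, inferInstance, ZZ p n L, ?_, ?_, ?_, ?_, ?_, ?_⟩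
  · intro x y
    refine lt_of_lt_of_le ?_ (sq_ge p n L hn2 x y)
    have : (0 : ℝ) < Fintype.card (GG p n L) := by exact_mod_cast Fintype.card_pos
    positivity
  · have := gap_ge (ZZ_neg p n L) (ZZ_nonempty p n L hn2) (1 / 2)
      (ZZ_char p n L hn2 hp (by omega)) (by
        have : Fact (1 < L) := ⟨by omega⟩
        exact Fintype.one_lt_card)
    linarith
  · refine le_tmix _ _ _ (hex _ (by norm_num)) fun t ht => ?_
    have := hlow' t 10 (by norm_num) ht
    push_cast at this; linarith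
  · refine le_tmix _ _ _ (hex _ (by norm_num)) fun t ht => ?_
    have := hlow' t 16 (by norm_num) ht
    push_cast at this; linarith
  · refine le_tmix _ _ _ (hex _ (by norm_num)) fun t ht => ?_
    have := hlow' t 1 (by norm_num) (by omega)
    push_cast at this; linarith
  · refine Nat.sInf_le ?_
    have := hup' 3
    rw [show 2 * (3 * (N + 1)) = 6 * (N + 1) by ring] at this
    exact this.trans (by norm_num)

/-- There are finite abelian groups `G N` and subsets `Z N` whose simple random walks are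
irreducible and aperiodic and satisfy the product condition, but do not exhibit cutoff. -/
theorem result :
    ∃ (G : ℕ → Type) (_ : ∀ N, AddCommGroup (G N)) (_ : ∀ N, Fintype (G N))
      (_ : ∀ N, DecidableEq (G N)) (Z : ∀ N, Finset (G N)),
      (∀ N, ∃ t : ℕ, ∀ x y : G N, 0 < (trans (Z N) ^ t) x y) ∧
      Tendsto (fun N => (tmix (Z N) (1 / 4) : ℝ) * gap (Z N)) atTop atTop ∧
      ¬ ∀ ε ∈ Set.Ioo (0 : ℝ) 1,
        Tendsto (fun N => (tmix (Z N) ε : ℝ) / (tmix (Z N) (1 - ε) : ℝ)) atTop (𝓝 1) := by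
  choose G i1 i2 i3 Z h1 h2 h3 h4 h5 h6 using package
  refine ⟨G, i1, i2, i3, Z, fun N => ⟨2, h1 N⟩, ?_, ?_⟩
  · refine tendsto_atTop_mono (fun N => ?_) tendsto_natCast_atTop_atTop
    have h3' : 10 * ((N : ℝ) + 1) ≤ tmix (Z N) (1 / 4) := by exact_mod_cast h3 N
    have hN : (0 : ℝ) ≤ N := by positivity
    have := h2 N
    nlinarith
  · intro h
    have h7 := h (1 / 10) ⟨by norm_num, by norm_num⟩
    have h8 : ∀ N, (2 : ℝ) ≤ (tmix (Z N) (1 / 10) : ℝ) / (tmix (Z N) (1 - 1 / 10) : ℝ) := by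
      intro N
      have a4 : 16 * ((N : ℝ) + 1) ≤ tmix (Z N) (1 / 10) := by exact_mod_cast h4 N
      have a5 : (1 : ℝ) ≤ tmix (Z N) (1 - 1 / 10) := by exact_mod_cast h5 N
      have a6 : (tmix (Z N) (1 - 1 / 10) : ℝ) ≤ 6 * ((N : ℝ) + 1) := by exact_mod_cast h6 N
      have hN : (0 : ℝ) ≤ N := by positivity
      rw [le_div_iff₀ (by linarith)]; linarith
    have := ge_of_tendsto' h7 h8
    linarith

end Pool.Agent.Results.MP_7f396f_pr.NoCutoff
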